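import Pool.Agent.X303.Five
import Pool.Agent.X303.TS.Good

/-!
# The motivic t-structure on motives of abelian type over a finite field

Let `k` be a finite field of characteristic `p`, and let `W` be a set of smooth projective schemes over `k`
which is closed under products, under products with projective spaces and under disjoint unions (of
schemes of the same dimension), for example all such schemes obtained from products of elliptic curves and
abelian surfaces. Let `K` be the thick triangulated subcategory of `DM_c(k)` generated by the objects
`obj X i = M(X)(i)[2 i]`, `X` in `W`, `i` an integer. `MotiveData` are these objects and the functors `R ℓ j`, the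
cohomology groups of the `ℓ`-adic realisation, for all primes `ℓ ≠ p`, with the Frobenius. We use the
following known properties (`IsGeometric`, `IsTensor`, `IsHomOf`): the groups of morphisms in `DM_c(k)` are
higher Chow groups of `Z = X × Y`; the isomorphism of Künneth and Poincaré; the Künneth components are
algebraic and independent of `ℓ` (Katz and Messing); the formula of Künneth; and purity of the cohomology of
smooth projective schemes (Deligne: `IsPure`). The category `K` is a triangulated category with a tensor
product in the sense of Mathlib, and the t-structure is a `TStructure` of Mathlib.

We assume that the products `Z = X × Y`, for `X` and `Y` in `W`, belong to the class (`Generated`) of the schemes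
over `k` that is generated by **all abelian varieties of dimension at most five** and **all abelian
varieties which over an algebraic closure are isogenous to products of elliptic curves and abelian
surfaces**, with any number of factors (`IsFiveOrSurfaces`), by direct summands of finite sums of twists
of motives and by localisation triples. For instance `W` can be the set of all products of curves of genus
at most two, abelian surfaces, Kummer surfaces, their Hilbert schemes of points, projective and flag bundles
over such schemes, and so on. Then `K` contains the motives `M(U)` and `M^c(U)` of all open and singular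
schemes `U` which have a stratification by open subschemes of such schemes with complements in the class.

The theorem (`IsMotivicTStructure`): on `K` there is a t-structure which is non-degenerate and bounded,
compatible with the tensor product, and such that all functors `R_ℓ` are t-exact; moreover all `R_ℓ` are
conservative and detect the t-structure: an object is in `K^{≤ n}` if and only if its `ℓ`-adic cohomology
is zero in degrees greater than `n`, for one `ℓ ≠ p` or for all, and similarly for `K^{≥ n}`.

The proof: for `X` and `Y` in `W` the conjectures of Tate and Beilinson and Parshin's conjecture for `X × Y` (the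
Tate conjecture for the abelian varieties is proved in the starting files) imply that there are no
morphisms of nonzero degree between the objects `obj X i`, that the realisation is faithful on morphisms of
degree zero, and that each morphism `f` of degree zero is regular, `f g f = f` for some `g`: there is such a
`g` on the cohomology, the semisimplicity of the eigenvalue one of the Frobenius on the cohomology of
`X × Y` and `Y × X` makes it Frobenius invariant, and a linear equation with rational coefficients that is
solvable over `Ω` is solvable over `ℚ`. The cone of a regular morphism from `A` to `B` is a direct summand of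
`B ⊕ A[1]`, so that all objects of `K` are finite direct sums of shifts of direct summands of the objects
`obj X i` which are concentrated in one degree; there are no morphisms between such objects with
different weights or different shifts.
-/

set_option autoImplicit false

namespace Pool.Agent.Results.MP_6d0ce9_ag.AbelianTypeFiniteField

open CategoryTheory CategoryTheory.Limits CategoryTheory.Pretriangulated MonoidalCategory
  Pool.Agent.W495.TA Pool.Agent.W495.FM Pool.Agent.Y137.GN Pool.Agent.X303.TBDual
  Pool.Agent.X303.TS

/-- The t-structure `t` is bounded and non-degenerate, it is compatible with the tensor product, and for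
all `ℓ` the realisation is t-exact and detects the t-structure. -/
structure IsMotivicTStructure {K : Type} [Category.{0} K] [Preadditive K] [HasZeroObject K]
    [HasShift K ℤ] [∀ n : ℤ, (shiftFunctor K n).Additive] [Pretriangulated K]
    [MonoidalCategory K] {W L Ω : Type} [Field Ω] (D : MotiveData K W L Ω)
    (t : Triangulated.TStructure K) : Prop where
  bounded : ∀ A, ∃ a b : ℤ, t.ge a A ∧ t.le b A
  nondegenerate : ∀ A, (∀ n, t.le n A) ∨ (∀ n, t.ge n A) → IsZero A
  tensor_le : ∀ (m n : ℤ) (A B : K), t.le m A → t.le n B → t.le (m + n) (A ⊗ B)
  tensor_ge : ∀ (m n : ℤ) (A B : K), t.ge m A → t.ge n B → t.ge (m + n) (A ⊗ B)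
  exact_le : ∀ (ℓ : L) (n : ℤ) (A : K), t.le n A ↔ ∀ j, n < j → IsZero ((D.R ℓ j).obj A)
  exact_ge : ∀ (ℓ : L) (n : ℤ) (A : K), t.ge n A ↔ ∀ j, j < n → IsZero ((D.R ℓ j).obj A)

/-- **The motivic t-structure** exists on the triangulated category of motives over a finite field
generated by smooth projective schemes whose products belong to the class generated by all abelian
varieties of dimension at most five and all products of elliptic curves and abelian surfaces. -/
theorem result (p : ℕ) [Fact p.Prime] (ν : PadicAlgCl p ≃+* ℂ) (Ω : Type) [Field Ω]
    [IsAlgClosed Ω] [CharZero Ω] (L : Type) [Nonempty L] (V : Type) (T : L → Homology Ω V)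
    (hT : ∀ ℓ, IsHomology (T ℓ)) (K : Type) [Category.{0} K] [Preadditive K] [HasZeroObject K]
    [HasShift K ℤ] [∀ n : ℤ, (shiftFunctor K n).Additive] [Pretriangulated K]
    [IsIdempotentComplete K] [MonoidalCategory K] [MonoidalPreadditive K] (W : Type) [Nonempty W]
    (D : MotiveData K W L Ω) (hD : IsGeometric D) (hD' : IsTensor D)
    (hW : ∀ (ℓ : L) X i Y j, ∃ (Z : V) (b : ℤ), Generated (T ℓ) (IsFiveOrSurfaces p ν (T ℓ)) Z ∧
      IsPure (T ℓ) Z ∧ IsHomOf D ℓ (T ℓ) Z b (D.obj X i) (D.obj Y j)) :
    ∃ t : Triangulated.TStructure K, IsMotivicTStructure D t := by
  have hg : Good D := good hD hT fun ℓ X i Y j => by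
    obtain ⟨Z, b, h1, h2, h3⟩ := hW ℓ X i Y j
    exact ⟨Z, b, tb_five (hT ℓ) h1, h2, h3⟩
  obtain ⟨t, h1, h2, h3, h4, h5, h6⟩ := exists_tStructure hD hg hD'
  exact ⟨t, h1, fun A hA => hA.elim (h2 A) (h3 A), h4, h5, fun ℓ n A => (h6 ℓ n A).1,
    fun ℓ n A => (h6 ℓ n A).2⟩

end Pool.Agent.Results.MP_6d0ce9_ag.AbelianTypeFiniteField
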