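import Pool.Agent.X307.MT.Crit

/-!
# Motivic t-structures in every characteristic: a criterion, uniqueness, conservativity
-/

open CategoryTheory Limits MonoidalCategory Pretriangulated Triangulated

universe u v w x

namespace Pool.Agent.Results.MP_6d0ce9_ag.CriterionAndUniqueness

open Pool.Agent.Y116.MT Pool.Agent.X307.MT

/-- **Theorem.** Let `C` be a rigid tensor triangulated category whose unit has no nontrivial
idempotent endomorphisms, with realisations `R l`, `l ∈ Λ` (for instance `C = DM_c(k)` for a field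
`k` of any characteristic, and the `ℓ`-adic realisations).

1. A motivic t-structure (non-degenerate, compatible with `⊗`, all `R l` t-exact) exists on `C` if
   and only if (a) objects whose cohomology groups `H_l^i` all vanish are zero and (b) for every `X`
   there is a triangle `A ⟶ X ⟶ B` with `H_l^i(A) = 0` for `i > 0` and `H_l^i(B) = 0` for `i ≤ 0`.
2. If `t` is motivic, then each single `R l` determines `t` and is conservative, the unit lies in
   the heart, the heart is closed under duals, each `R l` is faithful on the heart, `t` is bounded,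
   and every t-structure which is motivic for one of the `R l` is equal to `t`. -/
theorem result {C : Type u} [Category.{v} C] [Preadditive C] [HasZeroObject C] [HasShift C ℤ]
    [∀ n : ℤ, (shiftFunctor C n).Additive] [Pretriangulated C] [IsTriangulated C]
    [MonoidalCategory C] [SymmetricCategory C] [TensorTriangulated C] [MonoidalPreadditive C]
    [RightRigidCategory C] {Λ : Type x} [Nonempty Λ] {E : Λ → Type w} [∀ l, Field (E l)]
    (R : ∀ l, Realisation C (E l))
    (hid : ∀ e : 𝟙_ C ⟶ 𝟙_ C, e ≫ e = e → e = 0 ∨ e = 𝟙 (𝟙_ C)) :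
    ((∃ t : TStructure C, IsMotivic t R) ↔ Detects R ∧ HasTruncations R) ∧
    (∀ t : TStructure C, IsMotivic t R →
      (∀ (l : Λ) (n : ℤ) (X : C),
        t.le n X ↔ ∀ i : ℤ, n < i → IsZero ((R l).H.obj (X⟦i⟧))) ∧
      (∀ (l : Λ) (n : ℤ) (X : C),
        t.ge n X ↔ ∀ i : ℤ, i < n → IsZero ((R l).H.obj (X⟦i⟧))) ∧
      (∀ l : Λ, Conservative (R l)) ∧
      (t.le 0 (𝟙_ C) ∧ t.ge 0 (𝟙_ C)) ∧
      (∀ M : C, t.le 0 M → t.ge 0 M → t.le 0 (Mᘁ : C) ∧ t.ge 0 (Mᘁ : C)) ∧
      (∀ (l : Λ) (M N : C) (f : M ⟶ N), t.le 0 M → t.ge 0 M → t.le 0 N → t.ge 0 N →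
        (R l).H.map f = 0 → f = 0) ∧
      (∀ X : C, ∃ N : ℕ, t.le N X ∧ t.ge (-N) X) ∧
      (∀ (l : Λ) (t' : TStructure C), IsMotivic t' (fun _ : Unit => R l) → t' = t)) := by
  refine ⟨⟨fun ⟨t, ht⟩ => exists_crit ht hid, fun ⟨h1, h2⟩ => ⟨_, tOf_motivic h1 h2⟩⟩, ?_⟩
  intro t ht
  refine ⟨le_iff ht hid, ge_iff ht hid, isIso_of_R ht hid,
    ⟨(unitHrt ht).1.le, (unitHrt ht).2.ge⟩, fun M h1 h2 => ?_,
    fun l M N f h1 h2 h3 h4 hf => faithfulHrt ht hid l ⟨⟨h1⟩, ⟨h2⟩⟩ ⟨⟨h3⟩, ⟨h4⟩⟩ f hf,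
    bdd ht hid (Classical.arbitrary Λ), fun l t' ht' => ?_⟩
  · have h := dual_hrt (compat ht) (unitHrt ht) (M := M) ⟨⟨h1⟩, ⟨h2⟩⟩
    exact ⟨h.1.le, h.2.ge⟩
  · have e1 : t'.le = t.le := by
      funext n
      ext X
      rw [le_iff ht hid l n X, le_iff ht' hid () n X]
    have e2 : t'.ge = t.ge := by
      funext n
      ext X
      rw [ge_iff ht hid l n X, ge_iff ht' hid () n X]
    cases t
    cases t'
    cases e1
    cases e2
    rfl

end Pool.Agent.Results.MP_6d0ce9_ag.CriterionAndUniqueness
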