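import Pool.Agent.X307.MT.One
import Pool.Agent.X307.MT.Defs5

/-!
# Motivic t-structures and independence of `ℓ`: one prime suffices
-/

open CategoryTheory Limits MonoidalCategory Pretriangulated Triangulated

universe u v w x

namespace Pool.Agent.Results.MP_6d0ce9_ag.OnePrimeSuffices

open Pool.Agent.Y116.MT Pool.Agent.X307.MT

/-- **Theorem.** Let `C` be a `ℚ`-linear rigid tensor triangulated category whose unit has no
nontrivial idempotent endomorphisms, with realisations `R l`, `l ∈ Λ`, over fields of
characteristic zero (for instance `C = DM_c(k)` and the `ℓ`-adic realisations). Let `t` be a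
t-structure which is non-degenerate, compatible with the tensor product, and such that **one**
realisation `R l₀` is t-exact.

1. For every `l` and every `M` in the heart, the cohomology `H_l^i(M)` vanishes for all odd `i`.
2. Suppose moreover that `FiniteFieldType R`: `C` is generated by a class of Chow motives which
   satisfies the hard Lefschetz theorem, and there is a natural endomorphism `φ` of the identity
   functor with weights (for instance `C = DM_c(k)` for a **finite** field `k`, and `φ` is the
   Frobenius). Then **all** realisations `R l` are t-exact for `t`. -/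
theorem result {C : Type u} [Category.{v} C] [Preadditive C] [HasZeroObject C] [HasShift C ℤ]
    [∀ n : ℤ, (shiftFunctor C n).Additive] [Pretriangulated C] [IsTriangulated C]
    [MonoidalCategory C] [SymmetricCategory C] [TensorTriangulated C] [MonoidalPreadditive C]
    [RightRigidCategory C] [Linear ℚ C] {Λ : Type x} {E : Λ → Type w}
    [∀ l, Field (E l)] [∀ l, CharZero (E l)] (R : ∀ l, Realisation C (E l))
    (hid : ∀ e : 𝟙_ C ⟶ 𝟙_ C, e ≫ e = e → e = 0 ∨ e = 𝟙 (𝟙_ C))
    (l₀ : Λ) (t : TStructure C) (ht : IsMotivic t (fun _ : Unit => R l₀)) :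
    EvenHeart R t ∧ (FiniteFieldType R → IsMotivic t R) :=
  ⟨fun l _ h1 h2 _ hi => even_heart (R l) ht hid ⟨⟨h1⟩, ⟨h2⟩⟩ hi,
    fun ⟨_, _, _, hC, hL, hφ, hgen⟩ => one_prime ht hid hC hL hφ hgen⟩

end Pool.Agent.Results.MP_6d0ce9_ag.OnePrimeSuffices
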