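import Pool.Agent.X307.MT.Ss
import Pool.Agent.X307.MT.Defs3

/-!
# Motivic t-structures and the standard conjectures in every characteristic
-/

open CategoryTheory Limits MonoidalCategory Pretriangulated Triangulated

universe u v w x

namespace Pool.Agent.Results.MP_6d0ce9_ag.StandardConjectureD

open Pool.Agent.Y116.MT Pool.Agent.X307.MT

/-- **Theorem.** Let `C` be a `ℚ`-linear rigid tensor triangulated category with `End(𝟙) = ℚ`, with
realisations `R l` over fields of characteristic zero, a class `Chow` of Chow motives and a
Lefschetz object `T` for which the hard Lefschetz theorem holds (for instance `C = DM_c(k)` for a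
field `k` of any characteristic, the `ℓ`-adic realisations and `T = ℚ(1)[2]`). If `C` has a
t-structure which is motivic for the `R l`, then:

* (D) homological equivalence (for any single `l`) equals numerical equivalence for algebraic
  cycles, that is for morphisms `𝟙 ⟶ P`, where `P` is a Chow motive;
* (B) the inverses of the Lefschetz isomorphisms are algebraic;
* (C) the Künneth projectors are algebraic;
* every endomorphism of any object of `C` which is homologically trivial for one `l` is nilpotent;
* every natural endomorphism of the identity functor of `C` (for instance Frobenius if `k` is a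
  finite field) acts semisimply on all cohomology groups of all Chow motives. -/
theorem result {C : Type u} [Category.{v} C] [Preadditive C] [HasZeroObject C] [HasShift C ℤ]
    [∀ n : ℤ, (shiftFunctor C n).Additive] [Pretriangulated C] [IsTriangulated C]
    [MonoidalCategory C] [SymmetricCategory C] [TensorTriangulated C] [MonoidalPreadditive C]
    [RightRigidCategory C] [Linear ℚ C] {Λ : Type x} [Nonempty Λ] {E : Λ → Type w}
    [∀ l, Field (E l)] [∀ l, CharZero (E l)] (R : ∀ l, Realisation C (E l))
    (hEnd : ∀ e : 𝟙_ C ⟶ 𝟙_ C, ∃ q : ℚ, e = q • 𝟙 (𝟙_ C))
    (Chow : ObjectProperty C) (hC : IsChowClass Chow) (T : C) (hL : HardLefschetz Chow T R)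
    (t : TStructure C) (ht : IsMotivic t R) :
    ConjD R Chow ∧ ConjB R T ∧ ConjC R Chow ∧ HomTrivialNilpotent R ∧
      NaturalSemisimple R Chow := by
  have hid := hid_of_hEnd hEnd
  refine ⟨fun P hP s l => ⟨fun h r => ?_, fun h => ?_⟩,
    fun Q e hQ k L hL' => conjB ht hid hL e hQ k L hL', fun P hP n => conjC ht hid hL hP n,
    fun X a l ha => nilp ht hid l a ha,
    fun φ P hP l n => natural_semisimple ht hEnd hC hL φ hP l n⟩
  · by_contra hr
    exact conjD' ht hid s r hr l h
  · by_contra hs
    obtain ⟨r, hr⟩ := conjD ht hid hC hL hP s l hs
    exact hr (h r)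

end Pool.Agent.Results.MP_6d0ce9_ag.StandardConjectureD
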